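import Pool.Agent.Lib.MP_99d978_co.Poly

/-!
# A 4-regular triangle-free graph with a smaller occupancy fraction
-/

set_option autoImplicit false

namespace Pool.Agent.Results.MP_99d978_co.BothParts

open Classical in
/-- The partition function `Z_G(l) = ∑ l ^ |I|` of the hard-core model, the sum over all
independent sets `I` of `G`, including the empty set. -/
noncomputable def partitionFunction {V : Type} [Fintype V] (G : SimpleGraph V) (l : ℝ) : ℝ :=
  ∑ I ∈ Finset.univ.filter (fun I : Finset V => G.IsIndepSet (I : Set V)), l ^ I.card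

/-- The occupancy fraction `α_G(l) = (1 / |V|) * (l * Z_G'(l) / Z_G(l))`. -/
noncomputable def occupancyFraction {V : Type} [Fintype V] (G : SimpleGraph V) (l : ℝ) : ℝ :=
  1 / (Fintype.card V : ℝ) * (l * deriv (partitionFunction G) l / partitionFunction G l)

/-- Every vertex has exactly four neighbours. -/
def FourRegular {V : Type} (G : SimpleGraph V) : Prop := ∀ v : V, (G.neighborSet v).ncard = 4

/-- The Cyclotomic-13 graph: the circulant graph on the integers modulo 13 with `i ∼ j` iff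
`i - j` is one of `1`, `-1`, `5`, `-5`. -/
def cyclotomic13 : SimpleGraph (ZMod 13) where
  Adj i j := i - j = 1 ∨ i - j = -1 ∨ i - j = 5 ∨ i - j = -5
  symm := ⟨by decide⟩
  loopless := ⟨by decide⟩

open Pool.Agent.Occ

theorem pf_eq {V : Type} [Fintype V] (G : SimpleGraph V) (l : ℝ) :
    partitionFunction G l = wsum G (fun k => l ^ k) := by
  classical
  unfold partitionFunction wsum
  rw [Finset.sum_filter]

theorem pf_K (l : ℝ) : partitionFunction K l =
    1 + 20 * l + 150 * l ^ 2 + 540 * l ^ 3 + 988 * l ^ 4 + 888 * l ^ 5 + 328 * l ^ 6 +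
      16 * l ^ 7 := by
  rw [pf_eq, K_wsum]
  simp only [dot]
  push_cast
  ring

theorem pf_R (l : ℝ) : partitionFunction R l =
    1 + 19 * l + 133 * l ^ 2 + 437 * l ^ 3 + 703 * l ^ 4 + 516 * l ^ 5 + 137 * l ^ 6 +
      4 * l ^ 7 := by
  rw [pf_eq, R_wsum]
  simp only [dot]
  push_cast
  ring

theorem pf_C (l : ℝ) : partitionFunction cyclotomic13 l =
    1 + 13 * l + 52 * l ^ 2 + 78 * l ^ 3 + 39 * l ^ 4 := by
  have h : partitionFunction cyclotomic13 l = wsum Cyc (fun k => l ^ k) := pf_eq _ _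
  rw [h, C_wsum]
  simp only [dot]
  push_cast
  ring

theorem deriv_poly (a0 a1 a2 a3 a4 a5 a6 a7 l : ℝ) :
    deriv (fun l : ℝ => a0 + a1 * l + a2 * l ^ 2 + a3 * l ^ 3 + a4 * l ^ 4 + a5 * l ^ 5 +
      a6 * l ^ 6 + a7 * l ^ 7) l = a1 + 2 * a2 * l + 3 * a3 * l ^ 2 + 4 * a4 * l ^ 3 +
        5 * a5 * l ^ 4 + 6 * a6 * l ^ 5 + 7 * a7 * l ^ 6 := by
  have h : HasDerivAt (fun l : ℝ => a0 + a1 * l + a2 * l ^ 2 + a3 * l ^ 3 + a4 * l ^ 4 +
      a5 * l ^ 5 + a6 * l ^ 6 + a7 * l ^ 7)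
      (0 + a1 * 1 + a2 * ((2 : ℕ) * l ^ (2 - 1)) + a3 * ((3 : ℕ) * l ^ (3 - 1)) +
        a4 * ((4 : ℕ) * l ^ (4 - 1)) + a5 * ((5 : ℕ) * l ^ (5 - 1)) +
        a6 * ((6 : ℕ) * l ^ (6 - 1)) + a7 * ((7 : ℕ) * l ^ (7 - 1))) l :=
    (((((((hasDerivAt_const l a0).add ((hasDerivAt_id l).const_mul a1)).add
      ((hasDerivAt_pow 2 l).const_mul a2)).add ((hasDerivAt_pow 3 l).const_mul a3)).add
      ((hasDerivAt_pow 4 l).const_mul a4)).add ((hasDerivAt_pow 5 l).const_mul a5)).add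
      ((hasDerivAt_pow 6 l).const_mul a6)).add ((hasDerivAt_pow 7 l).const_mul a7)
  rw [h.deriv]
  push_cast
  ring

theorem occ_K (l : ℝ) : occupancyFraction K l =
    (20 * l + 300 * l ^ 2 + 1620 * l ^ 3 + 3952 * l ^ 4 + 4440 * l ^ 5 + 1968 * l ^ 6 +
      112 * l ^ 7) / (20 * (1 + 20 * l + 150 * l ^ 2 + 540 * l ^ 3 + 988 * l ^ 4 + 888 * l ^ 5 +
        328 * l ^ 6 + 16 * l ^ 7)) := by
  unfold occupancyFraction
  rw [show partitionFunction K = _ from funext pf_K, deriv_poly, Fintype.card_fin, div_mul_div_comm]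
  congr 1
  ring

theorem occ_R (l : ℝ) : occupancyFraction R l =
    (19 * l + 266 * l ^ 2 + 1311 * l ^ 3 + 2812 * l ^ 4 + 2580 * l ^ 5 + 822 * l ^ 6 +
      28 * l ^ 7) / (19 * (1 + 19 * l + 133 * l ^ 2 + 437 * l ^ 3 + 703 * l ^ 4 + 516 * l ^ 5 +
        137 * l ^ 6 + 4 * l ^ 7)) := by
  unfold occupancyFraction
  rw [show partitionFunction R = _ from funext pf_R, deriv_poly, Fintype.card_fin, div_mul_div_comm]
  congr 1
  ring

theorem occ_C (l : ℝ) : occupancyFraction cyclotomic13 l =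
    (13 * l + 104 * l ^ 2 + 234 * l ^ 3 + 156 * l ^ 4) /
      (13 * (1 + 13 * l + 52 * l ^ 2 + 78 * l ^ 3 + 39 * l ^ 4)) := by
  unfold occupancyFraction
  have h : partitionFunction cyclotomic13 = fun l : ℝ => 1 + 13 * l + 52 * l ^ 2 + 78 * l ^ 3 +
      39 * l ^ 4 + 0 * l ^ 5 + 0 * l ^ 6 + 0 * l ^ 7 := by
    funext l
    rw [pf_C]
    ring
  rw [h, deriv_poly, ZMod.card, div_mul_div_comm]
  congr 1 <;> push_cast <;> ring

theorem K_lt_C {l : ℝ} (h0 : 0 < l) (h1 : l ≤ 9 / 4) :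
    occupancyFraction K l < occupancyFraction cyclotomic13 l := by
  rw [occ_K, occ_C, div_lt_div_iff₀ (by positivity) (by positivity)]
  have e1 : 6864 * l ^ 7 ≤ 15444 * l ^ 6 := by
    have := mul_le_mul_of_nonneg_right h1 (by positivity : (0 : ℝ) ≤ 6864 * l ^ 6)
    linarith [this]
  have e2 : 28548 * l ^ 6 ≤ 64233 * l ^ 5 := by
    have := mul_le_mul_of_nonneg_right h1 (by positivity : (0 : ℝ) ≤ 28548 * l ^ 5)
    linarith [this]
  have e3 : 47697 * l ^ 5 ≤ 107319 * l ^ 4 := by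
    have := mul_le_mul_of_nonneg_right h1 (by positivity : (0 : ℝ) ≤ 47697 * l ^ 4)
    have h4 : (0 : ℝ) ≤ l ^ 4 := by positivity
    linarith [this]
  have e4 : 37639 * l ^ 4 ≤ 84688 * l ^ 3 := by
    have := mul_le_mul_of_nonneg_right h1 (by positivity : (0 : ℝ) ≤ 37639 * l ^ 3)
    have h4 : (0 : ℝ) ≤ l ^ 3 := by positivity
    linarith [this]
  have e5 : 7884 * l ^ 3 ≤ 17739 * l ^ 2 := by
    have := mul_le_mul_of_nonneg_right h1 (by positivity : (0 : ℝ) ≤ 7884 * l ^ 2)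
    linarith [this]
  have hl2 : (0 : ℝ) < l ^ 2 := by positivity
  have key : 0 < 884 + 9412 * l + 38844 * l ^ 2 + 76804 * l ^ 3 + 69680 * l ^ 4 + 16536 * l ^ 5 -
      13104 * l ^ 6 - 6864 * l ^ 7 := by
    linarith
  have key2 := mul_pos (by positivity : (0 : ℝ) < l ^ 4) key
  linarith

theorem K_lt_R {l : ℝ} (h0 : 6 / 5 ≤ l) : occupancyFraction K l < occupancyFraction R l := by
  obtain ⟨t, rfl⟩ : ∃ t, l = 6 / 5 + t := ⟨l - 6 / 5, by ring⟩
  have ht : 0 ≤ t := by linarith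
  have hl : 0 < 6 / 5 + t := by linarith
  rw [occ_K, occ_R, div_lt_div_iff₀ (by positivity) (by positivity)]
  have key : 0 < 546088260228 / 9765625 + 434823679068 / 78125 * t + 1831008640968 / 78125 * t ^ 2 +
      670835701176 / 15625 * t ^ 3 + 137155045612 / 3125 * t ^ 4 + 84632141676 / 3125 * t ^ 5 +
      254442832 / 25 * t ^ 6 + 55500488 / 25 * t ^ 7 + 1233456 / 5 * t ^ 8 + 10992 * t ^ 9 +
      448 * t ^ 10 := by positivity
  have key2 := mul_pos (by positivity : (0 : ℝ) < (6 / 5 + t) ^ 4) key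
  linarith

theorem ncard_nbhd {n : ℕ} {G : SimpleGraph (Fin n)} [DecidableRel G.Adj]
    (h : ∀ v, G.degree v = 4) : FourRegular G := by
  intro v
  rw [Set.ncard_eq_toFinset_card', ← h v]
  rfl

theorem reach_K : ∀ v : Fin 20, v = 0 ∨ adjK 0 v = true ∨
    ∃ a, adjK 0 a = true ∧ (adjK a v = true ∨ ∃ b, adjK a b = true ∧ adjK b v = true) := by
  decide +kernel

theorem K_connected : K.Connected := by
  rw [SimpleGraph.connected_iff_exists_forall_reachable]
  refine ⟨0, fun v => ?_⟩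
  rcases reach_K v with h | h | ⟨a, ha, h | ⟨b, hb, h⟩⟩
  · rw [h]
  · exact SimpleGraph.Adj.reachable (G := K) h
  · exact (SimpleGraph.Adj.reachable (G := K) ha).trans (SimpleGraph.Adj.reachable (G := K) h)
  · exact ((SimpleGraph.Adj.reachable (G := K) ha).trans
      (SimpleGraph.Adj.reachable (G := K) hb)).trans (SimpleGraph.Adj.reachable (G := K) h)

theorem R_egirth : R.egirth = 5 := by
  apply le_antisymm _ R_girth
  have h01 : R.Adj 0 1 := show adjR 0 1 = true by decide +kernel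
  have h12 : R.Adj 1 2 := show adjR 1 2 = true by decide +kernel
  have h23 : R.Adj 2 3 := show adjR 2 3 = true by decide +kernel
  have h34 : R.Adj 3 4 := show adjR 3 4 = true by decide +kernel
  have h40 : R.Adj 4 0 := show adjR 4 0 = true by decide +kernel
  let p : R.Walk 1 0 := .cons h12 (.cons h23 (.cons h34 (.cons h40 .nil)))
  have hc : (SimpleGraph.Walk.cons h01 p).IsCycle := by
    rw [SimpleGraph.Walk.cons_isCycle_iff]
    constructor
    · rw [SimpleGraph.Walk.isPath_def]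
      simp only [p, SimpleGraph.Walk.support_cons, SimpleGraph.Walk.support_nil]
      decide
    · simp only [p, SimpleGraph.Walk.edges_cons, SimpleGraph.Walk.edges_nil]
      decide
  exact hc.egirth_le_length

theorem root_le (x : ℝ)
    (hx : 90 * x ^ 6 + 729 * x ^ 5 - 188 * x ^ 4 - 1632 * x ^ 3 - 1247 * x ^ 2 - 363 * x = 38) :
    x < 89 / 50 := by
  by_contra hcon
  obtain ⟨t, rfl⟩ : ∃ t, x = 89 / 50 + t := ⟨x - 89 / 50, by ring⟩
  have ht : 0 ≤ t := by linarith [not_lt.mp hcon]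
  have h1 : 90 * (89 / 50 + t) ^ 6 + 729 * (89 / 50 + t) ^ 5 - 188 * (89 / 50 + t) ^ 4 -
      1632 * (89 / 50 + t) ^ 3 - 1247 * (89 / 50 + t) ^ 2 - 363 * (89 / 50 + t) - 38 =
      90 * t ^ 6 + 8451 / 5 * t ^ 5 + (264436 / 25) * t ^ 4 + (37848287 / 1250) * t ^ 3 +
      (5141285117 / 125000) * t ^ 2 + (677644680471 / 31250000) * t +
      (127038629127 / 781250000) := by
    ring
  have h2 : 0 < 90 * t ^ 6 + 8451 / 5 * t ^ 5 + (264436 / 25) * t ^ 4 +
      (37848287 / 1250) * t ^ 3 +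
      (5141285117 / 125000) * t ^ 2 + (677644680471 / 31250000) * t +
      (127038629127 / 781250000) := by positivity
  linarith

theorem exists_largest : ∃ L : ℝ, IsGreatest {x : ℝ | 90 * x ^ 6 + 729 * x ^ 5 - 188 * x ^ 4 -
    1632 * x ^ 3 - 1247 * x ^ 2 - 363 * x = 38} L ∧ 177 / 100 < L ∧ L < 178 / 100 := by
  have hcont : Continuous (fun x : ℝ => 90 * x ^ 6 + 729 * x ^ 5 - 188 * x ^ 4 - 1632 * x ^ 3 -
    1247 * x ^ 2 - 363 * x) := by fun_prop
  have hne : ∃ x ∈ Set.Icc (177 / 100 : ℝ) 2, 90 * x ^ 6 + 729 * x ^ 5 - 188 * x ^ 4 -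
      1632 * x ^ 3 - 1247 * x ^ 2 - 363 * x = 38 := by
    have h := intermediate_value_Icc (by norm_num : (177 / 100 : ℝ) ≤ 2) hcont.continuousOn
    have h0 : (38 : ℝ) ∈ Set.Icc
        (90 * (177 / 100 : ℝ) ^ 6 + 729 * (177 / 100 : ℝ) ^ 5 - 188 * (177 / 100 : ℝ) ^ 4 -
          1632 * (177 / 100 : ℝ) ^ 3 - 1247 * (177 / 100 : ℝ) ^ 2 - 363 * (177 / 100 : ℝ))
        (90 * (2 : ℝ) ^ 6 + 729 * (2 : ℝ) ^ 5 - 188 * (2 : ℝ) ^ 4 - 1632 * (2 : ℝ) ^ 3 -
          1247 * (2 : ℝ) ^ 2 - 363 * (2 : ℝ)) := by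
      constructor <;> norm_num
    obtain ⟨x, hx, hx0⟩ := h h0
    exact ⟨x, hx, hx0⟩
  have hclosed : IsClosed {x : ℝ | 90 * x ^ 6 + 729 * x ^ 5 - 188 * x ^ 4 - 1632 * x ^ 3 -
      1247 * x ^ 2 - 363 * x = 38} := isClosed_eq hcont continuous_const
  obtain ⟨x0, hx0, hx00⟩ := hne
  obtain ⟨L, hL, hmax⟩ := (isCompact_Icc.inter_right hclosed).exists_isGreatest
    (s := Set.Icc (177 / 100 : ℝ) 2 ∩ {x : ℝ | 90 * x ^ 6 + 729 * x ^ 5 - 188 * x ^ 4 -
      1632 * x ^ 3 - 1247 * x ^ 2 - 363 * x = 38}) ⟨x0, hx0, hx00⟩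
  have hlt := root_le L hL.2
  refine ⟨L, ⟨hL.2, ?_⟩, ?_, by linarith⟩
  · intro x hx
    by_cases h1 : 177 / 100 ≤ x
    · exact hmax ⟨⟨h1, by linarith [root_le x hx]⟩, hx⟩
    · have := hL.1.1
      linarith [not_le.mp h1]
  · refine lt_of_le_of_ne hL.1.1 ?_
    intro h
    have h2 : 90 * L ^ 6 + 729 * L ^ 5 - 188 * L ^ 4 - 1632 * L ^ 3 - 1247 * L ^ 2 - 363 * L =
      38 := hL.2
    rw [← h] at h2
    norm_num at h2

/-- **The conjecture fails, in both of its parts.** There are a connected 4-regular triangle-free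
graph `K` on 20 vertices and a 4-regular graph `R` of girth 5 on 19 vertices (the Robertson graph)
such that the occupancy fraction of `K` is smaller than that of the Cyclotomic-13 graph for
`0 < l ≤ 9 / 4`, and smaller than that of `R` for `l ≥ 6 / 5`. The largest real root `L` of the
sextic lies between these two numbers, so (i) fails on `[6 / 5, L]` and (ii) fails on
`[L, 9 / 4]`. -/
theorem result :
    ∃ (K : SimpleGraph (Fin 20)) (R : SimpleGraph (Fin 19)) (L : ℝ),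
      K.Connected ∧ FourRegular K ∧ K.CliqueFree 3 ∧
      FourRegular R ∧ R.egirth = 5 ∧
      IsGreatest {x : ℝ | 90 * x ^ 6 + 729 * x ^ 5 - 188 * x ^ 4 - 1632 * x ^ 3 -
        1247 * x ^ 2 - 363 * x = 38} L ∧
      177 / 100 < L ∧ L < 178 / 100 ∧
      (∀ l : ℝ, 6 / 5 ≤ l → occupancyFraction K l < occupancyFraction R l) ∧
      (∀ l : ℝ, 0 < l → l ≤ 9 / 4 → occupancyFraction K l < occupancyFraction cyclotomic13 l) := by
  obtain ⟨L, hL, h1, h2⟩ := exists_largest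
  exact ⟨K, R, L, K_connected, ncard_nbhd K_deg, K_cliqueFree, ncard_nbhd R_deg, R_egirth, hL,
    h1, h2, fun l hl => K_lt_R hl, fun l h0 h1 => K_lt_C h0 h1⟩

end Pool.Agent.Results.MP_99d978_co.BothParts
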